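import Mathlib
import Pool.Agent.H9.VR

namespace Pool.Agent.Results.MP_dee721_co.Full

open Finset Pool.Agent.H9.VR

/-- Simplices of `VR(Q_n; r)`: nonempty sets with all Hamming distances at most `r`. -/
def Simplex {n : ℕ} (r : ℕ) (σ : Finset (Fin n → Bool)) : Prop :=
  σ.Nonempty ∧ ∀ x ∈ σ, ∀ y ∈ σ, hammingDist x y ≤ r

/-- Facets: simplices maximal under inclusion. -/
def Facet {n : ℕ} (r : ℕ) (σ : Finset (Fin n → Bool)) : Prop :=
  Simplex r σ ∧ ∀ τ, Simplex r τ → σ ⊆ τ → τ = σ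

/-- Rigid: every vertex has largest distance exactly `r` to the simplex. -/
def Rigid {n : ℕ} (r : ℕ) (σ : Finset (Fin n → Bool)) : Prop :=
  ∀ x ∈ σ, (σ.sup fun y => hammingDist x y) = r

open Classical in
/-- The number of distinct dimensions of rigid facets of `VR(Q_n; r)`. -/
noncomputable def f (n r : ℕ) : ℕ :=
  ((univ.filter fun σ : Finset (Fin n → Bool) => Facet r σ ∧ Rigid r σ).image
    fun σ => σ.card - 1).card

theorem conv {n r : ℕ} {A : Finset (Fin n → Bool)} (h : Good r A) (hne : A.Nonempty) :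
    Facet r A ∧ Rigid r A := by
  refine ⟨⟨⟨hne, h.1⟩, fun τ hτ hs => subset_antisymm (fun x hx => ?_) hs⟩, fun a ha => ?_⟩
  · by_contra c
    obtain ⟨y, hy, e⟩ := h.2.2 x c
    exact absurd (hτ.2 x hx y (hs hy)) (not_le.2 e)
  · refine le_antisymm (Finset.sup_le fun x hx => h.1 a ha x hx) ?_
    obtain ⟨y, hy, e⟩ := h.2.1 a ha
    rw [← e]
    exact le_sup (f := fun y => hammingDist a y) hy

theorem result : (∀ r n : ℕ, 5 ≤ r → r + 2 ≤ n → 2 ^ (r - 5) < f n r) ∧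
    ∃ c : ℝ, 0 < c ∧ ∃ r₀ : ℕ, ∀ r ≥ r₀, ∃ n₀ : ℕ, ∀ n ≥ n₀, Real.exp (c * r) ≤ f n r := by
  classical
  have main : ∀ r n : ℕ, 5 ≤ r → r + 2 ≤ n → 2 ^ (r - 5) < f n r := by
    intro r n hr hn
    obtain ⟨m, rfl⟩ := Nat.exists_eq_add_of_le hr
    rw [Nat.add_sub_cancel_left, ← Nat.succ_le_iff, ← card_range (Nat.succ _)]
    have p : 0 < 2 ^ m := by positivity
    refine card_le_card_of_injOn (fun t => 32 * 2 ^ m - 16 * t - 1) (fun t ht => ?_)
      fun t ht s hs e => ?_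
    · have ht := Nat.lt_succ_iff.1 (mem_range.1 ht)
      obtain ⟨B, h1, h2⟩ := many m n t (by omega) ht
      exact mem_image.2 ⟨B, mem_filter.2 ⟨mem_univ B, conv h1 (card_pos.1 (by omega))⟩,
        by simp only; omega⟩
    · have ht := Nat.lt_succ_iff.1 (mem_range.1 ht)
      have hs := Nat.lt_succ_iff.1 (mem_range.1 hs)
      simp only at e
      omega
  refine ⟨main, Real.log 2 / 2, by have := Real.log_pos one_lt_two; positivity, 10,
    fun r hr => ⟨r + 2, fun n hn => ?_⟩⟩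
  have h1 : ((2 ^ (r - 5) : ℕ) : ℝ) ≤ f n r := Nat.cast_le.2 (main r n (by omega) hn).le
  refine le_trans ?_ h1
  obtain ⟨m, rfl⟩ := Nat.exists_eq_add_of_le (show 5 ≤ r by omega)
  have h2 : (5 : ℝ) ≤ m := by exact_mod_cast (show 5 ≤ m by omega)
  have e : (2 : ℝ) ^ m = Real.exp (m * Real.log 2) := by
    rw [Real.exp_nat_mul, Real.exp_log two_pos]
  rw [Nat.add_sub_cancel_left, Nat.cast_pow, Nat.cast_ofNat, e, Real.exp_le_exp]
  have := Real.log_pos one_lt_two
  push_cast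
  nlinarith

end Pool.Agent.Results.MP_dee721_co.Full
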